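import Mathlib
import Pool.Agent.Helper16.HR.Stmts

/-! Module KERN: common vertices of all edges. -/

set_option autoImplicit false

namespace Pool.Helper16.HR

open Finset

section

variable {I V : Type} [Fintype I] [DecidableEq I] [Fintype V]

theorem kern_swap (g : (I → V) → (I → V) → ℝ) :
    av (fun w => av (fun x => g w x)) = av (fun x => av (fun w => g w x)) := by
  unfold av
  rw [← sum_div, ← sum_div, sum_comm]

theorem kern_mix [Nonempty V] (K : Finset I) (f : (I → V) → ℝ) :
    av f = av (fun z => av (fun x => f (K.piecewise z x))) := by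
  rw [av_mix K f, kern_swap]

/-- the section of the family at `z` -/
def kernB (B : Finset I → (I → V) → Prop) (K : Finset I) (z : I → V) :
    Finset I → (I → V) → Prop := fun e' x => B (e' ∪ K) (K.piecewise z x)

open Classical in
/-- the average of the section -/
noncomputable def kernA (B : Finset I → (I → V) → Prop) (K : Finset I) (E' : Finset (Finset I))
    (z : I → V) : ℝ := av (fun x => ∏ e ∈ E', if kernB B K z e x then (1 : ℝ) else 0)

open Classical in
/-- what the removal sets do -/
def kernP (E' : Finset (Finset I)) (m : ℕ) (B' Z : Finset I → (I → V) → Prop) : Prop :=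
  (∀ e ∈ E', Dep e (Z e)) ∧
      (∀ e ∈ E', av (fun x => if Z e x then (1 : ℝ) else 0) ≤ 1 / m) ∧
      ∀ x, ¬ ∀ e ∈ E', B' e x ∧ ¬ Z e x

open Classical in
/-- a choice of removal sets -/
noncomputable def kernZ (E' : Finset (Finset I)) (m : ℕ) (B' : Finset I → (I → V) → Prop) :
    Finset I → (I → V) → Prop :=
  if h : ∃ Z, kernP E' m B' Z then h.choose else fun _ _ => False

theorem kernZ_spec (E' : Finset (Finset I)) (m : ℕ) (B' : Finset I → (I → V) → Prop)
    (h : ∃ Z, kernP E' m B' Z) : kernP E' m B' (kernZ E' m B') := by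
  unfold kernZ
  rw [dif_pos h]
  exact h.choose_spec

theorem kernZ_dep (E' : Finset (Finset I)) (m : ℕ) (B' : Finset I → (I → V) → Prop) :
    ∀ e ∈ E', Dep e (kernZ E' m B' e) := by
  by_cases h : ∃ Z, kernP E' m B' Z
  · exact (kernZ_spec E' m B' h).1
  · intro e _
    unfold kernZ
    rw [dif_neg h]
    intro x y _
    rfl

omit [Fintype I] [Fintype V] in
theorem kernB_congr (B : Finset I → (I → V) → Prop) (K : Finset I) {z w : I → V}
    (h : ∀ i ∈ K, z i = w i) : kernB B K z = kernB B K w := by
  funext e x
  have h1 : K.piecewise z x = K.piecewise w x := by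
    funext i
    by_cases hi : i ∈ K
    · simp [hi, h i hi]
    · simp [hi]
  unfold kernB
  rw [h1]

end

open Classical in
theorem st_KERN : ST_KERN := by
  intro I V _ _ _ _ E K hK m θ hm hθ hRem B hB
  have hmr : (0 : ℝ) < m := by exact_mod_cast hm
  rcases E.eq_empty_or_nonempty with hE | hE
  · left
    have h1 := hRem (fun _ _ => True) (by rw [hE]; simp)
    rcases h1 with h1 | ⟨Z, _, _, h2⟩
    · replace h1 : θ ≤ 1 := by
        refine le_trans h1 (av_le_one fun x => ?_)
        rw [hE]; simp
      have h4 : (fun x : I → V => ∏ e ∈ E, if B e x then (1 : ℝ) else 0) = fun _ => 1 := by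
        funext x; rw [hE]; simp
      rw [h4, av_const]
      rw [div_le_one (by positivity)]
      have : (1 : ℝ) ≤ m := by exact_mod_cast hm
      linarith
    · exfalso
      obtain ⟨x⟩ : Nonempty (I → V) := inferInstance
      apply h2 x
      rw [hE]; simp
  obtain ⟨E', hE'⟩ : ∃ E', E' = E.image (fun e => e \ K) := ⟨_, rfl⟩
  rw [← hE'] at hRem
  have hunion : ∀ e ∈ E, (e \ K) ∪ K = e := fun e he => sdiff_union_of_subset (hK e he)
  have hinj : Set.InjOn (fun e : Finset I => e \ K) (E : Set (Finset I)) := by
    intro a ha b hb hab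
    rw [← hunion a ha, ← hunion b hb]
    have : a \ K = b \ K := hab
    rw [this]
  have hmem : ∀ e ∈ E, e \ K ∈ E' := fun e he => by rw [hE']; exact mem_image_of_mem _ he
  -- sections
  have hdep : ∀ z : I → V, ∀ e' ∈ E', Dep e' (kernB B K z e') := by
    intro z e' he'
    rw [hE', mem_image] at he'
    obtain ⟨e, he, rfl⟩ := he'
    intro x y hxy
    unfold kernB
    rw [hunion e he]
    apply hB e he
    intro i hi
    by_cases hiK : i ∈ K
    · simp [hiK]
    · simp only [hiK, not_false_eq_true, piecewise_eq_of_notMem]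
      exact hxy i (mem_sdiff.mpr ⟨hi, hiK⟩)
  have hA : ∀ z : I → V, kernA B K E' z =
      av (fun x => ∏ e ∈ E, if B e (K.piecewise z x) then (1 : ℝ) else 0) := by
    intro z
    unfold kernA
    congr 1
    funext x
    rw [hE', prod_image hinj]
    refine prod_congr rfl fun e he => ?_
    unfold kernB
    rw [hunion e he]
  have hav : av (fun x => ∏ e ∈ E, if B e x then (1 : ℝ) else 0) = av (fun z => kernA B K E' z) := by
    rw [kern_mix K (fun x => ∏ e ∈ E, if B e x then (1 : ℝ) else 0)]
    congr 1
    funext z
    rw [hA]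
  by_cases hbig : θ / (2 * m) ≤ av (fun x => ∏ e ∈ E, if B e x then (1 : ℝ) else 0)
  · exact Or.inl hbig
  right
  push Not at hbig
  have hA0 : ∀ z, 0 ≤ kernA B K E' z := by
    intro z
    unfold kernA
    refine av_nonneg fun x => prod_nonneg fun e _ => ?_
    split_ifs <;> norm_num
  have hmarkov : av (fun z : I → V => if θ ≤ kernA B K E' z then (1 : ℝ) else 0) ≤
      1 / (2 * m) := by
    have h1 : θ * av (fun z : I → V => if θ ≤ kernA B K E' z then (1 : ℝ) else 0) ≤
        av (fun z => kernA B K E' z) := by
      rw [← av_mul_left]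
      refine av_mono fun z => ?_
      split_ifs with h
      · linarith
      · have := hA0 z
        linarith
    rw [← hav] at h1
    have h2 : θ * av (fun z : I → V => if θ ≤ kernA B K E' z then (1 : ℝ) else 0) ≤
        θ * (1 / (2 * m)) := by
      rw [mul_one_div]; linarith
    exact le_of_mul_le_mul_left h2 hθ
  have hKz : ∀ z x : I → V, ∀ i ∈ K, K.piecewise z x i = z i := fun z x i hi => by simp [hi]
  have hex : ∀ z : I → V, ¬ θ ≤ kernA B K E' z → ∃ Z, kernP E' (2 * m) (kernB B K z) Z := by
    intro z hz
    rcases hRem (kernB B K z) (hdep z) with h | ⟨Z, h1, h2, h3⟩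
    · exact absurd h hz
    · exact ⟨Z, h1, h2, h3⟩
  refine ⟨fun e x => θ ≤ kernA B K E' x ∨ kernZ E' (2 * m) (kernB B K x) (e \ K) x, ?_, ?_, ?_⟩
  · intro e he x y hxy
    have h1 : kernB B K x = kernB B K y := kernB_congr B K fun i hi => hxy i (hK e he hi)
    have h2 : kernA B K E' x = kernA B K E' y := by
      unfold kernA
      rw [h1]
    have h3 : kernZ E' (2 * m) (kernB B K y) (e \ K) x = kernZ E' (2 * m) (kernB B K y) (e \ K) y :=
      kernZ_dep E' (2 * m) (kernB B K y) (e \ K) (hmem e he) x y
        fun i hi => hxy i (mem_sdiff.mp hi).1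
    simp only
    rw [h1, h2, h3]
  · intro e he
    have h1 : ∀ x : I → V, (if (θ ≤ kernA B K E' x ∨ kernZ E' (2 * m) (kernB B K x) (e \ K) x)
        then (1 : ℝ) else 0) ≤ (if θ ≤ kernA B K E' x then (1 : ℝ) else 0) +
        (if (¬ θ ≤ kernA B K E' x ∧ kernZ E' (2 * m) (kernB B K x) (e \ K) x)
          then (1 : ℝ) else 0) := by
      intro x
      by_cases ha : θ ≤ kernA B K E' x
      · simp [ha]
      · simp [ha]
    have h2 : av (fun x : I → V => if (¬ θ ≤ kernA B K E' x ∧
        kernZ E' (2 * m) (kernB B K x) (e \ K) x) then (1 : ℝ) else 0) ≤ 1 / (2 * m) := by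
      rw [kern_mix K]
      have h3 : ∀ z : I → V, av (fun x : I → V => if (¬ θ ≤ kernA B K E' (K.piecewise z x) ∧
          kernZ E' (2 * m) (kernB B K (K.piecewise z x)) (e \ K) (K.piecewise z x))
          then (1 : ℝ) else 0) ≤ 1 / (2 * m) := by
        intro z
        have h4 : ∀ x : I → V, kernB B K (K.piecewise z x) = kernB B K z :=
          fun x => kernB_congr B K (hKz z x)
        have h5 : ∀ x : I → V, kernA B K E' (K.piecewise z x) = kernA B K E' z := by
          intro x
          unfold kernA
          rw [h4]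
        have h6 : ∀ x : I → V, kernZ E' (2 * m) (kernB B K z) (e \ K) (K.piecewise z x) =
            kernZ E' (2 * m) (kernB B K z) (e \ K) x := by
          intro x
          refine kernZ_dep E' (2 * m) (kernB B K z) (e \ K) (hmem e he) _ _ fun i hi => ?_
          simp [(mem_sdiff.mp hi).2]
        by_cases hz : θ ≤ kernA B K E' z
        · have h7 : (fun x : I → V => if (¬ θ ≤ kernA B K E' (K.piecewise z x) ∧
            kernZ E' (2 * m) (kernB B K (K.piecewise z x)) (e \ K) (K.piecewise z x))
            then (1 : ℝ) else 0) = fun _ => 0 := by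
            funext x
            rw [h5]
            simp [hz]
          rw [h7, av_const]
          positivity
        · have h7 : (fun x : I → V => if (¬ θ ≤ kernA B K E' (K.piecewise z x) ∧
            kernZ E' (2 * m) (kernB B K (K.piecewise z x)) (e \ K) (K.piecewise z x))
            then (1 : ℝ) else 0) =
            fun x => if kernZ E' (2 * m) (kernB B K z) (e \ K) x then (1 : ℝ) else 0 := by
            funext x
            rw [h5, h4, h6]
            simp [hz]
          rw [h7]
          have h8 := (kernZ_spec E' (2 * m) (kernB B K z) (hex z hz)).2.1 (e \ K) (hmem e he)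
          push_cast at h8
          exact h8
      calc av (fun z : I → V => av (fun x : I → V =>
            if (¬ θ ≤ kernA B K E' (K.piecewise z x) ∧
            kernZ E' (2 * m) (kernB B K (K.piecewise z x)) (e \ K) (K.piecewise z x))
            then (1 : ℝ) else 0)) ≤ av (fun _ : I → V => 1 / (2 * (m : ℝ))) := av_mono h3
        _ = 1 / (2 * m) := av_const _
    have h9 := av_mono h1
    rw [av_add] at h9
    have h10 : (1 : ℝ) / (2 * m) + 1 / (2 * m) = 1 / m := by field_simp; norm_num
    refine le_trans (le_of_eq (av_congr fun x => ?_)) (le_trans h9 ?_)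
    · congr
    · linarith
  · intro x hx
    obtain ⟨e0, he0⟩ := hE
    have h0 := (hx e0 he0).2
    have hnot : ¬ θ ≤ kernA B K E' x := fun h => h0 (Or.inl h)
    have hs := (kernZ_spec E' (2 * m) (kernB B K x) (hex x hnot)).2.2 x
    apply hs
    intro e' he'
    rw [hE', mem_image] at he'
    obtain ⟨e, he, rfl⟩ := he'
    obtain ⟨h1, h2⟩ := hx e he
    refine ⟨?_, fun h => h2 (Or.inr h)⟩
    have h3 : K.piecewise x x = x := by
      funext i
      by_cases hi : i ∈ K <;> simp [hi]
    unfold kernB
    rw [hunion e he, h3]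
    exact h1

end Pool.Helper16.HR
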